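import Pool.Agent.H43.SAK.Stmts

/-!
Project SAK, module FBL: from the set inequality to the functional inequality (tensor powers).
-/

namespace Pool.Agent.H43.SAK

open Finset

namespace FBL

theorem prod_eq {ι V : Type} [Fintype ι] [Fintype V] [DecidableEq V] (φ : V → ℝ) (u : ι → V) :
    ∏ i, φ (u i) = ∏ y : V, φ y ^ (univ.filter (fun i => u i = y)).card := by
  rw [← Finset.prod_fiberwise univ u (fun i => φ (u i))]
  refine Finset.prod_congr rfl fun y _ => ?_
  rw [Finset.prod_congr rfl (g := fun _ => φ y)]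
  · rw [Finset.prod_const]
  · intro i hi
    rw [(Finset.mem_filter.1 hi).2]

/-- exponential against polynomial growth -/
theorem growth (S T C : ℝ) (M : ℕ) (hS : 0 ≤ S) (hT : 0 ≤ T) (hC : 0 < C)
    (h : ∀ n : ℕ, S ^ n ≤ C * ((n : ℝ) + 1) ^ M * T ^ n) : S ≤ T := by
  by_contra hlt
  push Not at hlt
  rcases hT.eq_or_lt with h0 | h0
  · have h1 := h 1
    rw [← h0] at h1 hlt
    simp at h1
    linarith
  · have hr : 1 < S / T := by rwa [one_lt_div h0]
    have h1 := tendsto_pow_const_div_const_pow_of_one_lt M hr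
    have h2 := h1.comp (Filter.tendsto_add_atTop_nat 1)
    have hr0 : 0 < S / T := by linarith
    have h3 : ∀ᶠ n : ℕ in Filter.atTop, (((n + 1 : ℕ) : ℝ)) ^ M / (S / T) ^ (n + 1) <
        1 / (C * (S / T)) := (tendsto_order.1 h2).2 _ (by positivity)
    obtain ⟨n, hn⟩ := h3.exists
    have h4 := h n
    rw [div_lt_div_iff₀ (by positivity) (by positivity), one_mul, pow_succ] at hn
    push_cast at hn
    have h5 : ((n : ℝ) + 1) ^ M * C < (S / T) ^ n := by
      have h6 : (((n : ℝ) + 1) ^ M * C) * (S / T) < (S / T) ^ n * (S / T) := by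
        calc (((n : ℝ) + 1) ^ M * C) * (S / T) = ((n : ℝ) + 1) ^ M * (C * (S / T)) := by ring
          _ < _ := hn
      exact lt_of_mul_lt_mul_right h6 hr0.le
    rw [div_pow, lt_div_iff₀ (by positivity)] at h5
    nlinarith

end FBL

open FBL in
theorem fbl : FblSt := by
  intro p _ c C hc hC hSet V _ _ _ _ _ D x f hf
  classical
  haveI : Fintype V := Fintype.ofFinite V
  have hD : ∀ (D : Finset V) (x : V → V) (t : ZMod p), 0 ≤ ∑ y ∈ sl D x t, f t y :=
    fun D x t => Finset.sum_nonneg fun y _ => hf t y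
  refine growth _ _ C (Fintype.card (ZMod p × V)) ?_ ?_ hC ?_
  · exact Finset.sum_nonneg fun v _ => Finset.prod_nonneg fun t _ => Real.rpow_nonneg (hf _ _) _
  · exact Finset.prod_nonneg fun t _ => Real.rpow_nonneg (hD _ _ _) _
  intro n
  set g : V → ℝ := fun v => ∏ t : ZMod p, (f t (x v + t • v)) ^ c with hg
  set T : ℝ := ∏ t : ZMod p, (∑ y ∈ sl D x t, f t y) ^ c with hT
  have hT0 : 0 ≤ T := Finset.prod_nonneg fun t _ => Real.rpow_nonneg (hD _ _ _) _
  set P : Finset (Fin n → V) := Fintype.piFinset (fun _ : Fin n => D) with hP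
  have hpow : (∑ v ∈ D, g v) ^ n = ∑ w ∈ P, ∏ i, g (w i) := by
    have := Finset.prod_univ_sum (fun _ : Fin n => D) (fun _ v => g v)
    rw [Finset.prod_const, Finset.card_univ, Fintype.card_fin] at this
    exact this
  set key : (Fin n → V) → (ZMod p × V) → ℕ :=
    fun w q => (univ.filter (fun i => x (w i) + q.1 • w i = q.2)).card with hkey
  set Kk : Finset ((ZMod p × V) → ℕ) := Fintype.piFinset (fun _ => Finset.range (n + 1)) with hKk
  have hmaps : ∀ w ∈ P, key w ∈ Kk := by
    intro w _
    rw [hKk, Fintype.mem_piFinset]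
    intro q
    rw [Finset.mem_range, hkey]
    have := Finset.card_filter_le (univ : Finset (Fin n)) (fun i => x (w i) + q.1 • w i = q.2)
    rw [Finset.card_univ, Fintype.card_fin] at this
    exact Nat.lt_succ_of_le this
  have hcardK : (Kk.card : ℝ) = ((n : ℝ) + 1) ^ Fintype.card (ZMod p × V) := by
    rw [hKk, Fintype.card_piFinset]
    simp
  rw [hpow, ← Finset.sum_fiberwise_of_maps_to hmaps]
  have hcls : ∀ k ∈ Kk, ∑ w ∈ P.filter (fun w => key w = k), ∏ i, g (w i) ≤ C * T ^ n := by
    intro k _
    set K := P.filter (fun w => key w = k) with hK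
    rcases K.eq_empty_or_nonempty with he | hne
    · rw [he, Finset.sum_empty]
      positivity
    · set F : ZMod p → ℝ := fun t => ∏ y : V, f t y ^ k (t, y) with hF
      have hF0 : ∀ t, 0 ≤ F t := fun t => Finset.prod_nonneg fun y _ => pow_nonneg (hf t y) _
      have hFw : ∀ w ∈ K, ∀ t : ZMod p, ∏ i, f t (x (w i) + t • w i) = F t := by
        intro w hw t
        rw [prod_eq (f t) (fun i => x (w i) + t • w i), hF]
        refine Finset.prod_congr rfl fun y _ => ?_
        have h1 : key w = k := (Finset.mem_filter.1 hw).2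
        have h2 := congrFun h1 (t, y)
        rw [← h2]
      have hterm : ∀ w ∈ K, ∏ i, g (w i) = ∏ t : ZMod p, (F t) ^ c := by
        intro w hw
        rw [hg, Finset.prod_comm]
        refine Finset.prod_congr rfl fun t _ => ?_
        rw [← hFw w hw t, Real.finset_prod_rpow _ _ (fun i _ => hf _ _)]
      rw [Finset.sum_congr rfl hterm, Finset.sum_const, nsmul_eq_mul]
      have h1 := hSet (Fin n → V) K (fun w i => x (w i))
      have h2 : ∀ t : ZMod p, ((sl K (fun w i => x (w i)) t).card : ℝ) * F t ≤
          (∑ y ∈ sl D x t, f t y) ^ n := by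
        intro t
        have h3 := Finset.prod_univ_sum (fun _ : Fin n => sl D x t) (fun _ y => f t y)
        rw [Finset.prod_const, Finset.card_univ, Fintype.card_fin] at h3
        rw [h3]
        have h4 : ∀ z ∈ sl K (fun w i => x (w i)) t, ∏ i, f t (z i) = F t := by
          intro z hz
          unfold sl at hz
          obtain ⟨w, hw, rfl⟩ := Finset.mem_image.1 hz
          exact hFw w hw t
        rw [← nsmul_eq_mul, ← Finset.sum_const, ← Finset.sum_congr rfl h4]
        refine Finset.sum_le_sum_of_subset_of_nonneg ?_ ?_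
        · intro z hz
          unfold sl at hz
          obtain ⟨w, hw, rfl⟩ := Finset.mem_image.1 hz
          rw [Fintype.mem_piFinset]
          intro i
          have hwP : w ∈ P := (Finset.mem_filter.1 hw).1
          rw [hP, Fintype.mem_piFinset] at hwP
          exact Finset.mem_image.2 ⟨w i, hwP i, rfl⟩
        · intro z _ _
          exact Finset.prod_nonneg fun i _ => hf _ _
      calc (K.card : ℝ) * ∏ t : ZMod p, (F t) ^ c
          ≤ (C * ∏ t : ZMod p, ((sl K (fun w i => x (w i)) t).card : ℝ) ^ c) *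
            ∏ t : ZMod p, (F t) ^ c := by
            apply mul_le_mul_of_nonneg_right h1
            exact Finset.prod_nonneg fun t _ => Real.rpow_nonneg (hF0 t) _
        _ = C * ∏ t : ZMod p, (((sl K (fun w i => x (w i)) t).card : ℝ) * F t) ^ c := by
            rw [mul_assoc, ← Finset.prod_mul_distrib]
            congr 1
            refine Finset.prod_congr rfl fun t _ => ?_
            rw [Real.mul_rpow (Nat.cast_nonneg _) (hF0 t)]
        _ ≤ C * ∏ t : ZMod p, ((∑ y ∈ sl D x t, f t y) ^ n) ^ c := by
            apply mul_le_mul_of_nonneg_left _ hC.le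
            refine Finset.prod_le_prod (fun t _ => Real.rpow_nonneg ?_ _) fun t _ => ?_
            · exact mul_nonneg (Nat.cast_nonneg _) (hF0 t)
            · exact Real.rpow_le_rpow (mul_nonneg (Nat.cast_nonneg _) (hF0 t)) (h2 t) hc.le
        _ = C * T ^ n := by
            rw [hT, ← Finset.prod_pow]
            congr 1
            refine Finset.prod_congr rfl fun t _ => ?_
            rw [← Real.rpow_natCast, ← Real.rpow_natCast, ← Real.rpow_mul (hD _ _ _),
              ← Real.rpow_mul (hD _ _ _), mul_comm]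
  calc ∑ k ∈ Kk, ∑ w ∈ P.filter (fun w => key w = k), ∏ i, g (w i)
      ≤ ∑ k ∈ Kk, C * T ^ n := Finset.sum_le_sum hcls
    _ = C * ((n : ℝ) + 1) ^ Fintype.card (ZMod p × V) * T ^ n := by
        rw [Finset.sum_const, nsmul_eq_mul, hcardK]
        ring

end Pool.Agent.H43.SAK
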